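import Pool.Agent.Lib.MP_6ff0c5_lc.Defs
import Pool.Agent.Lib.MP_6ff0c5_lc.LQ.Pos

/-!
MP_6ff0c5_lc: from a quantifier-free formula to a system of linear equations and multiplications.

The nodes of the formula are numbered from the end of its postfix notation; the node `p` has the variables
`12 p, …, 12 p + 11`, and `12 p` is its value (`0` or `1` for a formula).
-/

set_option autoImplicit false

namespace Pool.Agent.Lib.MP_6ff0c5_lc

open Pool.Agent.Lib.MP_6ff0c5_lc.LQ
open N487b59b3 (bitEncode)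

/-- the number of nodes -/
def Term.size : Term → ℕ
  | .zero => 1
  | .one => 1
  | .var _ => 1
  | .add a b => 1 + b.size + a.size
  | .mul a b => 1 + b.size + a.size

def Fml.size : Fml → ℕ
  | .eq a b => 1 + b.size + a.size
  | .lt a b => 1 + b.size + a.size
  | .not p => 1 + p.size
  | .and p q => 1 + q.size + p.size
  | .or p q => 1 + q.size + p.size

/-- A node: its kind, the digits of the index of a variable, its number, and the numbers of its children. -/
abbrev Rec := ℕ × List Bool × ℕ × ℕ × ℕ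

/-- the nodes of a term, its root is `p` -/
def Term.recs : Term → ℕ → List Rec
  | .zero, p => [(0, [], p, 0, 0)]
  | .one, p => [(1, [], p, 0, 0)]
  | .var i, p => [(2, bitEncode i, p, 0, 0)]
  | .add a b, p => (3, [], p, p + 1 + b.size, p + 1) :: (b.recs (p + 1) ++ a.recs (p + 1 + b.size))
  | .mul a b, p => (4, [], p, p + 1 + b.size, p + 1) :: (b.recs (p + 1) ++ a.recs (p + 1 + b.size))

/-- the nodes of a formula, its root is `p` -/
def Fml.recs : Fml → ℕ → List Rec
  | .eq a b, p => (5, [], p, p + 1 + b.size, p + 1) :: (b.recs (p + 1) ++ a.recs (p + 1 + b.size))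
  | .lt a b, p => (6, [], p, p + 1 + b.size, p + 1) :: (b.recs (p + 1) ++ a.recs (p + 1 + b.size))
  | .not q, p => (7, [], p, p + 1, 0) :: q.recs (p + 1)
  | .and a b, p => (8, [], p, p + 1 + b.size, p + 1) :: (b.recs (p + 1) ++ a.recs (p + 1 + b.size))
  | .or a b, p => (9, [], p, p + 1 + b.size, p + 1) :: (b.recs (p + 1) ++ a.recs (p + 1 + b.size))

/-! ### The local constraints -/

/-- linear equations of a sum -/
def addL (p a b : ℕ) : List Form := [(0, [(1, 12 * a), (1, 12 * b), (-1, 12 * p)])]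
/-- products of a product -/
def mulM (p a b : ℕ) : List (ℕ × ℕ × ℕ) := [(12 * a, 12 * b, 12 * p)]

/-- `t = s`: `d = t - s`, `b d = 0`, `d w = c`, `c + b = 1` -/
def eqL (p a b : ℕ) : List Form :=
  [(0, [(1, 12 * a), (-1, 12 * b), (-1, 12 * p + 1)]), (0, [(1, 12 * p + 2)]), (-1, [(1, 12 * p + 4), (1, 12 * p)])]
def eqM (p : ℕ) : List (ℕ × ℕ × ℕ) := [(12 * p, 12 * p + 1, 12 * p + 2), (12 * p + 1, 12 * p + 3, 12 * p + 4)]

/-- `t < s`: `d = s - t`, `b² = b`, `(d w² - 1) b = 0`, `(d + v²) (1 - b) = 0` -/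
def ltL (p a b : ℕ) : List Form :=
  [(0, [(1, 12 * b), (-1, 12 * a), (-1, 12 * p + 1)]), (0, [(1, 12 * p + 6)]),
    (-1, [(1, 12 * p + 4), (-1, 12 * p + 5)]), (0, [(1, 12 * p + 1), (1, 12 * p + 8), (-1, 12 * p + 9)]),
    (-1, [(1, 12 * p + 10), (1, 12 * p)])]
def ltM (p : ℕ) : List (ℕ × ℕ × ℕ) :=
  [(12 * p, 12 * p, 12 * p), (12 * p + 2, 12 * p + 2, 12 * p + 3), (12 * p + 1, 12 * p + 3, 12 * p + 4),
    (12 * p + 5, 12 * p, 12 * p + 6), (12 * p + 7, 12 * p + 7, 12 * p + 8), (12 * p + 9, 12 * p + 10, 12 * p + 6)]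

def notL (p a : ℕ) : List Form := [(-1, [(1, 12 * p), (1, 12 * a)])]

def orL (p a b : ℕ) : List Form := [(0, [(1, 12 * a), (1, 12 * b), (-1, 12 * p + 1), (-1, 12 * p)])]
def orM (p a b : ℕ) : List (ℕ × ℕ × ℕ) := [(12 * a, 12 * b, 12 * p + 1)]

/-- the linear equations of a node -/
def linsR (r : Rec) : List Form :=
  if r.1 = 0 then [(0, [(1, 12 * r.2.2.1)])]
  else if r.1 = 1 then [(-1, [(1, 12 * r.2.2.1)])]
  else if r.1 = 3 then addL r.2.2.1 r.2.2.2.1 r.2.2.2.2
  else if r.1 = 5 then eqL r.2.2.1 r.2.2.2.1 r.2.2.2.2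
  else if r.1 = 6 then ltL r.2.2.1 r.2.2.2.1 r.2.2.2.2
  else if r.1 = 7 then notL r.2.2.1 r.2.2.2.1
  else if r.1 = 9 then orL r.2.2.1 r.2.2.2.1 r.2.2.2.2
  else []

/-- the products of a node -/
def mulsR (r : Rec) : List (ℕ × ℕ × ℕ) :=
  if r.1 = 4 then mulM r.2.2.1 r.2.2.2.1 r.2.2.2.2
  else if r.1 = 5 then eqM r.2.2.1
  else if r.1 = 6 then ltM r.2.2.1
  else if r.1 = 8 then mulM r.2.2.1 r.2.2.2.1 r.2.2.2.2
  else if r.1 = 9 then orM r.2.2.1 r.2.2.2.1 r.2.2.2.2
  else []

/-- the occurrence of a variable -/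
def occR (r : Rec) : List (List Bool × ℕ) := if r.1 = 2 then [(r.2.1, r.2.2.1)] else []

/-- the equations between equal variables -/
def occL (l : List (List Bool × ℕ)) : List Form :=
  l.flatMap fun o => l.flatMap fun o' => if o.1 = o'.1 then [(0, [(1, 12 * o.2), (-1, 12 * o'.2)])] else []

/-- The system of a list of nodes. -/
def sysR (n : ℕ) (R : List Rec) : Sys0 where
  n := 12 * n
  lins := (-1, [(1, 0)]) :: (R.flatMap linsR ++ occL (R.flatMap occR))
  muls := R.flatMap mulsR

/-- The system of a formula. -/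
def Fml.sys (φ : Fml) : Sys0 := sysR φ.size (φ.recs 0)

/-! ### Well-formedness -/

/-- a well-formed linear equation -/
def GoodL (n : ℕ) (f : Form) : Prop :=
  (f.1 = -1 ∨ f.1 = 0 ∨ f.1 = 1) ∧ f.2.length ≤ 4 ∧ ∀ p ∈ f.2, (p.1 = -1 ∨ p.1 = 0 ∨ p.1 = 1) ∧ p.2 < n

def GoodM (n : ℕ) (q : ℕ × ℕ × ℕ) : Prop := q.1 < n ∧ q.2.1 < n ∧ q.2.2 < n

/-- a well-formed node -/
def GoodR (n : ℕ) (r : Rec) : Prop := r.2.2.1 < n ∧ r.2.2.2.1 < n ∧ r.2.2.2.2 < n

theorem GoodR.mono {n m : ℕ} (h : n ≤ m) {r : Rec} (hr : GoodR n r) : GoodR m r :=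
  ⟨hr.1.trans_le h, hr.2.1.trans_le h, hr.2.2.trans_le h⟩

theorem good_linsR {n : ℕ} {r : Rec} (hr : GoodR n r) : ∀ f ∈ linsR r, GoodL (12 * n) f := by
  obtain ⟨k, w, p, a, b⟩ := r
  obtain ⟨hp, ha, hb⟩ := hr
  simp only at hp ha hb
  unfold linsR
  split_ifs
  · simp [GoodL]; omega
  · simp [GoodL]; omega
  · simp [addL, GoodL]; omega
  · simp only [eqL, GoodL, List.forall_mem_cons]
    simp
    omega
  · simp only [ltL, GoodL, List.forall_mem_cons]
    simp
    omega
  · simp [notL, GoodL]; omega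
  · simp [orL, GoodL]; omega
  · simp

theorem good_mulsR {n : ℕ} {r : Rec} (hr : GoodR n r) : ∀ f ∈ mulsR r, GoodM (12 * n) f := by
  obtain ⟨k, w, p, a, b⟩ := r
  obtain ⟨hp, ha, hb⟩ := hr
  simp only at hp ha hb
  unfold mulsR
  split_ifs
  · simp [mulM, GoodM]; omega
  · simp [eqM, GoodM]; omega
  · simp [ltM, GoodM]; omega
  · simp [mulM, GoodM]; omega
  · simp [orM, GoodM]; omega
  · simp

theorem Term.size_pos (t : Term) : 1 ≤ t.size := by cases t <;> simp [Term.size] <;> omega
theorem Fml.size_pos (t : Fml) : 1 ≤ t.size := by cases t <;> simp [Fml.size] <;> omega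

theorem good_bin {p sa sb k : ℕ} {A B : List Rec} (ha : 1 ≤ sa) (hb : 1 ≤ sb)
    (hA : ∀ r ∈ A, GoodR (p + 1 + sb + sa) r) (hB : ∀ r ∈ B, GoodR (p + 1 + sb) r) :
    ∀ r ∈ ((k, [], p, p + 1 + sb, p + 1) : Rec) :: (B ++ A), GoodR (p + (1 + sb + sa)) r := by
  intro r hr
  rcases List.mem_cons.1 hr with rfl | hr
  · unfold GoodR
    refine ⟨?_, ?_, ?_⟩ <;> simp only <;> omega
  rcases List.mem_append.1 hr with hr | hr
  · exact (hB r hr).mono (by omega)
  · exact (hA r hr).mono (by omega)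

theorem Term.good (t : Term) : ∀ p, ∀ r ∈ t.recs p, GoodR (p + t.size) r := by
  induction t with
  | zero => intro p; simp [Term.recs, Term.size, GoodR]
  | one => intro p; simp [Term.recs, Term.size, GoodR]
  | var i => intro p; simp [Term.recs, Term.size, GoodR]
  | add a b iha ihb => intro p; exact good_bin a.size_pos b.size_pos (iha _) (ihb _)
  | mul a b iha ihb => intro p; exact good_bin a.size_pos b.size_pos (iha _) (ihb _)

theorem Fml.good (t : Fml) : ∀ p, ∀ r ∈ t.recs p, GoodR (p + t.size) r := by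
  induction t with
  | eq a b => intro p; exact good_bin a.size_pos b.size_pos (a.good _) (b.good _)
  | lt a b => intro p; exact good_bin a.size_pos b.size_pos (a.good _) (b.good _)
  | not q ih =>
    intro p r hr
    have hq := q.size_pos
    have hs : (Fml.not q).size = 1 + q.size := rfl
    rw [hs]
    rcases List.mem_cons.1 hr with rfl | hr
    · unfold GoodR
      refine ⟨?_, ?_, ?_⟩ <;> simp only <;> omega
    · exact (ih _ r hr).mono (by omega)
  | and a b iha ihb => intro p; exact good_bin a.size_pos b.size_pos (iha _) (ihb _)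
  | or a b iha ihb => intro p; exact good_bin a.size_pos b.size_pos (iha _) (ihb _)

theorem sysR_wf {n : ℕ} {R : List Rec} (hn : 1 ≤ n) (hR : ∀ r ∈ R, GoodR n r) : (sysR n R).WF := by
  constructor
  · intro f hf
    show GoodL (12 * n) f
    unfold sysR at hf
    simp only [List.mem_cons, List.mem_append, List.mem_flatMap] at hf
    rcases hf with rfl | ⟨r, hr, hf⟩ | hf
    · refine ⟨by simp, by simp, ?_⟩
      simp
      omega
    · exact good_linsR (hR r hr) f hf
    · have hocc : ∀ o ∈ R.flatMap occR, o.2 < n := by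
        intro o ho
        rw [List.mem_flatMap] at ho
        obtain ⟨r, hr, ho⟩ := ho
        unfold occR at ho
        split_ifs at ho
        · simp only [List.mem_cons, List.not_mem_nil, or_false] at ho
          rw [ho]
          exact (hR r hr).1
        · exact absurd ho List.not_mem_nil
      unfold occL at hf
      rw [List.mem_flatMap] at hf
      obtain ⟨o, ho, hf⟩ := hf
      rw [List.mem_flatMap] at hf
      obtain ⟨o', ho', hf⟩ := hf
      split_ifs at hf with h
      · simp only [List.mem_cons, List.not_mem_nil, or_false] at hf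
        subst hf
        have h1 := hocc o ho
        have h2 := hocc o' ho'
        refine ⟨by simp, by simp, ?_⟩
        simp
        omega
      · exact absurd hf List.not_mem_nil
  · intro q hq
    unfold sysR at hq
    simp only [List.mem_flatMap] at hq
    obtain ⟨r, hr, hq⟩ := hq
    exact good_mulsR (hR r hr) q hq

theorem Fml.sys_wf (φ : Fml) : φ.sys.WF :=
  sysR_wf φ.size_pos fun r hr => by
    have := φ.good 0 r hr
    rwa [Nat.zero_add] at this

end Pool.Agent.Lib.MP_6ff0c5_lc
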