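import Pool.Agent.Lib.MP_6ff0c5_lc.Net.Cmp.Glue

/-!
MP_6ff0c5_lc: a stack machine which checks postfix words and computes the list of the nodes of the formula.
-/

set_option autoImplicit false

namespace Pool.Agent.Lib.MP_6ff0c5_lc

open N487b59b3 (bitEncode)

/-- A raw symbol: the digits of its kind and of its index. -/
abbrev RTok := List Bool × List Bool

/-- the raw symbol of a symbol -/
def Tok.raw (t : Tok) : RTok := (bitEncode t.num.1, bitEncode t.num.2)

/-- the digits of the kinds -/
def kinds : List (List Bool) :=
  [[], [true], [false, true], [true, true], [false, false, true], [true, false, true], [false, true, true],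
    [true, true, true], [false, false, false, true], [true, false, false, true]]

/-- the kind of a raw symbol, `10` if it is not valid -/
def kindOf (w : List Bool) : ℕ := kinds.idxOf w

/-- the digits of a number -/
def canon (w : List Bool) : Bool := w.reverse.headD true

/-- States: validity, the stack of types (`true` for formulas) and roots, the nodes. -/
abbrev St := Bool × List (Bool × ℕ) × List Rec

/-- one step of the machine -/
def step (s : St) (q : RTok × ℕ) : St :=
  if kindOf q.1.1 ≤ 2 then
    (s.1 && (if kindOf q.1.1 = 2 then canon q.1.2 else decide (q.1.2 = [])), (false, q.2) :: s.2.1,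
      (kindOf q.1.1, q.1.2, q.2, 0, 0) :: s.2.2)
  else if kindOf q.1.1 = 7 then
    (s.1 && (decide (q.1.2 = []) && (s.2.1.getD 0 (false, 0)).1), (true, q.2) :: s.2.1.drop 1,
      (7, [], q.2, (s.2.1.getD 0 (false, 0)).2, 0) :: s.2.2)
  else
    (s.1 && (decide (q.1.2 = []) && (decide (kindOf q.1.1 ≤ 9) && (decide (2 ≤ s.2.1.length) &&
      (decide ((s.2.1.getD 0 (false, 0)).1 = decide (8 ≤ kindOf q.1.1)) &&
        decide ((s.2.1.getD 1 (false, 0)).1 = decide (8 ≤ kindOf q.1.1)))))),
      (decide (5 ≤ kindOf q.1.1), q.2) :: s.2.1.drop 2,
      (kindOf q.1.1, [], q.2, (s.2.1.getD 1 (false, 0)).2, (s.2.1.getD 0 (false, 0)).2) :: s.2.2)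

/-- the run on a list of raw symbols whose last one has the number `P` -/
def run (s : St) : List RTok → ℕ → St
  | [], _ => s
  | t :: l, P => run (step s (t, P + l.length)) l P

theorem run_append (s : St) (l l' : List RTok) (P : ℕ) :
    run s (l ++ l') P = run (run s l (P + l'.length)) l' P := by
  induction l generalizing s with
  | nil => rfl
  | cons t l ih =>
    show run (step s (t, P + (l ++ l').length)) (l ++ l') P = run (run (step s (t, P + l'.length + l.length)) l
      (P + l'.length)) l' P
    rw [ih, List.length_append, show P + (l.length + l'.length) = P + l'.length + l.length by omega]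

theorem run_snoc (s : St) (l : List RTok) (t : RTok) (P : ℕ) : run s (l ++ [t]) P = step (run s l (P + 1)) (t, P) := by
  rw [run_append]
  rfl

theorem run_eq_foldl (s : St) (l : List RTok) :
    run s l 0 = (l.zip (List.range l.length).reverse).foldl step s := by
  induction l generalizing s with
  | nil => rfl
  | cons t l ih =>
    unfold run
    rw [ih, List.length_cons, List.range_succ, List.reverse_append, List.reverse_singleton, List.singleton_append,
      List.zip_cons_cons, List.foldl_cons, Nat.zero_add]

/-! ### Kinds -/

theorem kindOf_eq {w : List Bool} {k : ℕ} (hk : k ≤ 9) (h : kindOf w = k) : w = bitEncode k := by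
  have h1 : kindOf w < kinds.length := by rw [h]; exact Nat.lt_succ_of_le hk
  have h2 : w ∈ kinds := List.idxOf_lt_length_iff.1 h1
  have h3 : kinds[kindOf w] = w := List.getElem_idxOf h1
  have h4 : ∀ k (hk : k ≤ 9), kinds[k]'(Nat.lt_succ_of_le hk) = bitEncode k := by
    intro k hk
    interval_cases k <;> rfl
  rw [← h4 k hk, ← h3]
  congr 1

theorem kindOf_bitEncode {k : ℕ} (hk : k ≤ 9) : kindOf (bitEncode k) = k := by
  interval_cases k <;> rfl

theorem canon_bitEncode (i : ℕ) : canon (bitEncode i) = true := by
  have key : ∀ n : PosNum, (Computability.encodePosNum n).reverse.headD true = true := by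
    intro n
    induction n with
    | one => rfl
    | bit0 n ih =>
      have e : Computability.encodePosNum (PosNum.bit0 n) = false :: Computability.encodePosNum n := rfl
      have hne : Computability.encodePosNum n ≠ [] := Computability.encodePosNum_nonempty n
      rw [e, List.reverse_cons]
      rw [List.headD_eq_head?_getD, List.head?_append_of_ne_nil _ (by simpa using hne), ← List.headD_eq_head?_getD]
      exact ih
    | bit1 n ih =>
      have e : Computability.encodePosNum (PosNum.bit1 n) = true :: Computability.encodePosNum n := rfl
      have hne : Computability.encodePosNum n ≠ [] := Computability.encodePosNum_nonempty n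
      rw [e, List.reverse_cons]
      rw [List.headD_eq_head?_getD, List.head?_append_of_ne_nil _ (by simpa using hne), ← List.headD_eq_head?_getD]
      exact ih
  show canon (Computability.encodeNat i) = true
  unfold canon Computability.encodeNat Computability.encodeNum
  cases (i : Num) with
  | zero => rfl
  | pos n => exact key n

theorem exists_of_canon {w : List Bool} (h : canon w = true) : ∃ i : ℕ, w = bitEncode i := by
  have key : ∀ w : List Bool, w ≠ [] → canon w = true → ∃ n : PosNum, w = Computability.encodePosNum n := by
    intro w
    induction w with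
    | nil => intro h; exact absurd rfl h
    | cons b w ih =>
      intro _ hc
      by_cases hw : w = []
      · subst hw
        unfold canon at hc
        simp only [List.reverse_singleton, List.headD_cons] at hc
        exact ⟨PosNum.one, by rw [hc]; rfl⟩
      · have hc' : canon w = true := by
          unfold canon at hc ⊢
          rw [List.reverse_cons, List.headD_eq_head?_getD, List.head?_append_of_ne_nil _ (by simpa using hw),
            ← List.headD_eq_head?_getD] at hc
          exact hc
        obtain ⟨n, hn⟩ := ih hw hc'
        cases b with
        | false => exact ⟨PosNum.bit0 n, by rw [hn]; rfl⟩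
        | true => exact ⟨PosNum.bit1 n, by rw [hn]; rfl⟩
  by_cases hw : w = []
  · exact ⟨0, by rw [hw]; rfl⟩
  · obtain ⟨n, hn⟩ := key w hw h
    refine ⟨((Num.pos n : Num) : ℕ), ?_⟩
    show w = Computability.encodeNat _
    unfold Computability.encodeNat
    rw [Num.of_to_nat]
    exact hn

/-! ### The machine on the words of terms and formulas -/

def Term.raws (t : Term) : List RTok := t.toks.map Tok.raw
def Fml.raws (t : Fml) : List RTok := t.toks.map Tok.raw

theorem Term.raws_length (t : Term) : t.raws.length = t.size := by
  unfold Term.raws
  rw [List.length_map]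
  induction t with
  | zero => rfl
  | one => rfl
  | var i => rfl
  | add a b iha ihb => simp only [Term.toks, Term.size, List.length_append, List.length_singleton, iha, ihb]; omega
  | mul a b iha ihb => simp only [Term.toks, Term.size, List.length_append, List.length_singleton, iha, ihb]; omega

theorem Fml.raws_length (t : Fml) : t.raws.length = t.size := by
  unfold Fml.raws
  rw [List.length_map]
  have h := Term.raws_length
  simp only [Term.raws, List.length_map] at h
  induction t with
  | eq a b => simp only [Fml.toks, Fml.size, List.length_append, List.length_singleton, h]; omega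
  | lt a b => simp only [Fml.toks, Fml.size, List.length_append, List.length_singleton, h]; omega
  | not q ih => simp only [Fml.toks, Fml.size, List.length_append, List.length_singleton, ih]; omega
  | and a b iha ihb => simp only [Fml.toks, Fml.size, List.length_append, List.length_singleton, iha, ihb]; omega
  | or a b iha ihb => simp only [Fml.toks, Fml.size, List.length_append, List.length_singleton, iha, ihb]; omega

theorem step_leaf (s : St) (p : ℕ) : step s (Tok.raw .zero, p) = (s.1, (false, p) :: s.2.1, (0, [], p, 0, 0) :: s.2.2) ∧
    step s (Tok.raw .one, p) = (s.1, (false, p) :: s.2.1, (1, [], p, 0, 0) :: s.2.2) ∧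
    ∀ i, step s (Tok.raw (.var i), p) = (s.1, (false, p) :: s.2.1, (2, bitEncode i, p, 0, 0) :: s.2.2) := by
  refine ⟨?_, ?_, fun i => ?_⟩
  · have h1 : kindOf (Tok.raw .zero).1 = 0 := rfl
    have h2 : (Tok.raw .zero).2 = [] := rfl
    unfold step
    simp only [h1, h2]
    simp
  · have h1 : kindOf (Tok.raw .one).1 = 1 := rfl
    have h2 : (Tok.raw .one).2 = [] := rfl
    unfold step
    simp only [h1, h2]
    simp
  · have h1 : kindOf (Tok.raw (.var i)).1 = 2 := by
      simp only [Tok.raw, Tok.num]
      exact kindOf_bitEncode (k := 2) (by norm_num)
    have h2 : (Tok.raw (.var i)).2 = bitEncode i := rfl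
    unfold step
    simp only [h1, h2, canon_bitEncode]
    simp

theorem step_bin {k : ℕ} {t : RTok} (h1 : kindOf t.1 = k) (h2 : t.2 = []) (hk3 : 3 ≤ k) (hk7 : k ≠ 7) (hk9 : k ≤ 9)
    (v : Bool) (a b p : ℕ) (st : List (Bool × ℕ)) (R : List Rec) :
    step (v, (decide (8 ≤ k), b) :: (decide (8 ≤ k), a) :: st, R) (t, p) =
      (v, (decide (5 ≤ k), p) :: st, (k, [], p, a, b) :: R) := by
  unfold step
  simp only [h1, h2]
  rw [if_neg (by omega), if_neg hk7]
  have h3 : decide (k ≤ 9) = true := decide_eq_true hk9
  simp only [List.getD_cons_zero, List.getD_cons_succ, List.length_cons, h3]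
  simp

theorem step_not (v : Bool) (a p : ℕ) (st : List (Bool × ℕ)) (R : List Rec) :
    step (v, (true, a) :: st, R) (Tok.raw .not, p) = (v, (true, p) :: st, (7, [], p, a, 0) :: R) := by
  have h1 : kindOf (Tok.raw .not).1 = 7 := rfl
  have h2 : (Tok.raw .not).2 = [] := rfl
  unfold step
  simp only [h1, h2]
  simp

theorem Term.run_eq (t : Term) : ∀ (v : Bool) (st : List (Bool × ℕ)) (R : List Rec) (P : ℕ),
    run (v, st, R) t.raws P = (v, (false, P) :: st, t.recs P ++ R) := by
  induction t with
  | zero => intro v st R P; exact (step_leaf (v, st, R) _).1
  | one => intro v st R P; exact (step_leaf (v, st, R) _).2.1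
  | var i => intro v st R P; exact (step_leaf (v, st, R) _).2.2 i
  | add a b iha ihb =>
    intro v st R P
    have e : (Term.add a b).raws = (a.raws ++ b.raws) ++ [Tok.raw .add] := by
      unfold Term.raws
      rw [Term.toks, List.map_append, List.map_append]
      rfl
    rw [e, run_snoc, run_append, iha, ihb, Term.raws_length]
    have := step_bin (k := 3) (t := Tok.raw .add) rfl rfl le_rfl (by norm_num) (by norm_num) v (P + 1 + b.size)
      (P + 1) P st (b.recs (P + 1) ++ (a.recs (P + 1 + b.size) ++ R))
    simp only [show decide (8 ≤ 3) = false from rfl, show decide (5 ≤ 3) = false from rfl] at this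
    rw [this]
    simp only [Term.recs, List.cons_append, List.append_assoc]
  | mul a b iha ihb =>
    intro v st R P
    have e : (Term.mul a b).raws = (a.raws ++ b.raws) ++ [Tok.raw .mul] := by
      unfold Term.raws
      rw [Term.toks, List.map_append, List.map_append]
      rfl
    rw [e, run_snoc, run_append, iha, ihb, Term.raws_length]
    have := step_bin (k := 4) (t := Tok.raw .mul) rfl rfl (by norm_num) (by norm_num) (by norm_num) v (P + 1 + b.size)
      (P + 1) P st (b.recs (P + 1) ++ (a.recs (P + 1 + b.size) ++ R))
    simp only [show decide (8 ≤ 4) = false from rfl, show decide (5 ≤ 4) = false from rfl] at this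
    rw [this]
    simp only [Term.recs, List.cons_append, List.append_assoc]

theorem Fml.run_eq (t : Fml) : ∀ (v : Bool) (st : List (Bool × ℕ)) (R : List Rec) (P : ℕ),
    run (v, st, R) t.raws P = (v, (true, P) :: st, t.recs P ++ R) := by
  induction t with
  | eq a b =>
    intro v st R P
    have e : (Fml.eq a b).raws = (a.raws ++ b.raws) ++ [Tok.raw .eq] := by
      unfold Fml.raws Term.raws
      rw [Fml.toks, List.map_append, List.map_append]
      rfl
    rw [e, run_snoc, run_append, a.run_eq, b.run_eq, Term.raws_length]
    have := step_bin (k := 5) (t := Tok.raw .eq) rfl rfl (by norm_num) (by norm_num) (by norm_num) v (P + 1 + b.size)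
      (P + 1) P st (b.recs (P + 1) ++ (a.recs (P + 1 + b.size) ++ R))
    simp only [show decide (8 ≤ 5) = false from rfl, show decide (5 ≤ 5) = true from rfl] at this
    rw [this]
    simp only [Fml.recs, List.cons_append, List.append_assoc]
  | lt a b =>
    intro v st R P
    have e : (Fml.lt a b).raws = (a.raws ++ b.raws) ++ [Tok.raw .lt] := by
      unfold Fml.raws Term.raws
      rw [Fml.toks, List.map_append, List.map_append]
      rfl
    rw [e, run_snoc, run_append, a.run_eq, b.run_eq, Term.raws_length]
    have := step_bin (k := 6) (t := Tok.raw .lt) rfl rfl (by norm_num) (by norm_num) (by norm_num) v (P + 1 + b.size)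
      (P + 1) P st (b.recs (P + 1) ++ (a.recs (P + 1 + b.size) ++ R))
    simp only [show decide (8 ≤ 6) = false from rfl, show decide (5 ≤ 6) = true from rfl] at this
    rw [this]
    simp only [Fml.recs, List.cons_append, List.append_assoc]
  | not q ih =>
    intro v st R P
    have e : (Fml.not q).raws = q.raws ++ [Tok.raw .not] := by
      unfold Fml.raws
      rw [Fml.toks, List.map_append]
      rfl
    rw [e, run_snoc, ih, step_not]
    simp only [Fml.recs, List.cons_append]
  | and a b iha ihb =>
    intro v st R P
    have e : (Fml.and a b).raws = (a.raws ++ b.raws) ++ [Tok.raw .and] := by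
      unfold Fml.raws
      rw [Fml.toks, List.map_append, List.map_append]
      rfl
    rw [e, run_snoc, run_append, iha, ihb, Fml.raws_length]
    have := step_bin (k := 8) (t := Tok.raw .and) rfl rfl (by norm_num) (by norm_num) (by norm_num) v (P + 1 + b.size)
      (P + 1) P st (b.recs (P + 1) ++ (a.recs (P + 1 + b.size) ++ R))
    simp only [show decide (8 ≤ 8) = true from rfl, show decide (5 ≤ 8) = true from rfl] at this
    rw [this]
    simp only [Fml.recs, List.cons_append, List.append_assoc]
  | or a b iha ihb =>
    intro v st R P
    have e : (Fml.or a b).raws = (a.raws ++ b.raws) ++ [Tok.raw .or] := by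
      unfold Fml.raws
      rw [Fml.toks, List.map_append, List.map_append]
      rfl
    rw [e, run_snoc, run_append, iha, ihb, Fml.raws_length]
    have := step_bin (k := 9) (t := Tok.raw .or) rfl rfl (by norm_num) (by norm_num) (by norm_num) v (P + 1 + b.size)
      (P + 1) P st (b.recs (P + 1) ++ (a.recs (P + 1 + b.size) ++ R))
    simp only [show decide (8 ≤ 9) = true from rfl, show decide (5 ≤ 9) = true from rfl] at this
    rw [this]
    simp only [Fml.recs, List.cons_append, List.append_assoc]

/-! ### The machine accepts only words of formulas -/

/-- Terms and formulas. -/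
abbrev Item := Term ⊕ Fml

def Item.raws : Item → List RTok
  | .inl t => Term.raws t
  | .inr φ => Fml.raws φ

def Item.isF : Item → Bool
  | .inl _ => false
  | .inr _ => true

def Item.size : Item → ℕ
  | .inl t => Term.size t
  | .inr φ => Fml.size φ

def Item.recs : Item → ℕ → List Rec
  | .inl t => Term.recs t
  | .inr φ => Fml.recs φ

/-- the stack of a list of items -/
def stk : ℕ → List Item → List (Bool × ℕ)
  | _, [] => []
  | P, i :: is => (i.isF, P) :: stk (P + i.size) is

def rcs : ℕ → List Item → List Rec
  | _, [] => []
  | P, i :: is => i.recs P ++ rcs (P + i.size) is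

def tks : List Item → List RTok
  | [] => []
  | i :: is => tks is ++ i.raws

theorem exists_raw {t : RTok} {k : ℕ} (hk : kindOf t.1 = k) (hk9 : k ≤ 9) : t.1 = bitEncode k := kindOf_eq hk9 hk

/-- The invariant. -/
theorem run_inv (l : List RTok) : ∀ P, (run (true, [], []) l P).1 = true →
    ∃ its : List Item, l = tks its ∧ run (true, [], []) l P = (true, stk P its, rcs P its) := by
  induction l using List.reverseRecOn with
  | nil => intro P _; exact ⟨[], rfl, rfl⟩
  | append_singleton l t ih =>
    intro P h
    rw [run_snoc] at h ⊢
    have hv : (run (true, [], []) l (P + 1)).1 = true := by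
      unfold step at h
      split_ifs at h <;> simp only [Bool.and_eq_true] at h <;> exact h.1
    obtain ⟨its, hl, hrun⟩ := ih (P + 1) hv
    rw [hrun] at h ⊢
    unfold step at h ⊢
    simp only at h ⊢
    by_cases h2 : kindOf t.1 ≤ 2
    · rw [if_pos h2] at h ⊢
      simp only [Bool.true_and] at h
      rw [h]
      by_cases h22 : kindOf t.1 = 2
      · rw [if_pos h22] at h
        obtain ⟨i, hi⟩ := exists_of_canon h
        have hk2 : t.1 = bitEncode 2 := exists_raw h22 (by norm_num)
        have ht : t = Tok.raw (.var i) := by
          simp only [Tok.raw, Tok.num]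
          exact Prod.ext hk2 hi
        refine ⟨Sum.inl (.var i) :: its, ?_, ?_⟩
        · rw [tks, hl, ht]; rfl
        · rw [h22, hi]; rfl
      · rw [if_neg h22, decide_eq_true_eq] at h
        have h01 : kindOf t.1 = 0 ∨ kindOf t.1 = 1 := by omega
        rcases h01 with h0 | h0
        · have ht : t = Tok.raw .zero := Prod.ext (exists_raw h0 (by norm_num)) h
          refine ⟨Sum.inl .zero :: its, ?_, ?_⟩
          · rw [tks, hl, ht]; rfl
          · rw [h0, h]; rfl
        · have ht : t = Tok.raw .one := Prod.ext (exists_raw h0 (by norm_num)) h
          refine ⟨Sum.inl .one :: its, ?_, ?_⟩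
          · rw [tks, hl, ht]; rfl
          · rw [h0, h]; rfl
    · rw [if_neg h2] at h ⊢
      by_cases h7 : kindOf t.1 = 7
      · rw [if_pos h7] at h ⊢
        simp only [Bool.true_and] at h
        rw [h]
        simp only [Bool.and_eq_true, decide_eq_true_eq] at h
        obtain ⟨hidx, htop⟩ := h
        have ht : t = Tok.raw .not := Prod.ext (exists_raw h7 (by norm_num)) hidx
        match its, hl, hrun, htop with
        | [], _, _, htop => simp [stk] at htop
        | Sum.inl a :: is, _, _, htop => simp [stk, Item.isF] at htop
        | Sum.inr φ :: is, hl, hrun, htop =>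
          refine ⟨Sum.inr (.not φ) :: is, ?_, ?_⟩
          · rw [hl, ht]
            simp only [tks, Item.raws, Fml.raws, Fml.toks, List.map_append, List.append_assoc]
            rfl
          · unfold stk rcs
            have e : P + 1 + Item.size (Sum.inr φ) = P + Item.size (Sum.inr (.not φ)) := by
              show P + 1 + φ.size = P + (1 + φ.size)
              omega
            rw [e]
            rfl
      · rw [if_neg h7] at h ⊢
        simp only [Bool.true_and] at h
        rw [h]
        simp only [Bool.and_eq_true, decide_eq_true_eq] at h
        obtain ⟨hidx, h9, hlen, htop, htop2⟩ := h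
        match its, hl, hrun, hlen, htop, htop2 with
        | [], _, _, hlen, _, _ => simp [stk] at hlen
        | [_], _, _, hlen, _, _ => simp [stk] at hlen
        | Sum.inl b :: Sum.inl a :: is, hl, hrun, hlen, htop, htop2 =>
          have hk8 : ¬ 8 ≤ kindOf t.1 := by
            intro h8
            rw [decide_eq_true h8] at htop
            simp [stk, Item.isF] at htop
          have hcases : kindOf t.1 = 3 ∨ kindOf t.1 = 4 ∨ kindOf t.1 = 5 ∨ kindOf t.1 = 6 := by omega
          have e : P + 1 + b.size + a.size = P + (1 + b.size + a.size) := by omega
          rcases hcases with hk | hk | hk | hk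
          · have ht : t = Tok.raw .add := Prod.ext (exists_raw hk (by norm_num)) hidx
            refine ⟨Sum.inl (.add a b) :: is, ?_, ?_⟩
            · rw [hl, ht]
              simp only [tks, Item.raws, Term.raws, Term.toks, List.map_append, List.append_assoc]
              rfl
            · rw [hk]
              simp only [stk, rcs, Item.size, Item.isF, Item.recs, Term.size, Term.recs, e]
              simp
          · have ht : t = Tok.raw .mul := Prod.ext (exists_raw hk (by norm_num)) hidx
            refine ⟨Sum.inl (.mul a b) :: is, ?_, ?_⟩
            · rw [hl, ht]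
              simp only [tks, Item.raws, Term.raws, Term.toks, List.map_append, List.append_assoc]
              rfl
            · rw [hk]
              simp only [stk, rcs, Item.size, Item.isF, Item.recs, Term.size, Term.recs, e]
              simp
          · have ht : t = Tok.raw .eq := Prod.ext (exists_raw hk (by norm_num)) hidx
            refine ⟨Sum.inr (.eq a b) :: is, ?_, ?_⟩
            · rw [hl, ht]
              simp only [tks, Item.raws, Term.raws, Fml.raws, Fml.toks, List.map_append, List.append_assoc]
              rfl
            · rw [hk]
              simp only [stk, rcs, Item.size, Item.isF, Item.recs, Fml.size, Fml.recs, e]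
              simp
          · have ht : t = Tok.raw .lt := Prod.ext (exists_raw hk (by norm_num)) hidx
            refine ⟨Sum.inr (.lt a b) :: is, ?_, ?_⟩
            · rw [hl, ht]
              simp only [tks, Item.raws, Term.raws, Fml.raws, Fml.toks, List.map_append, List.append_assoc]
              rfl
            · rw [hk]
              simp only [stk, rcs, Item.size, Item.isF, Item.recs, Fml.size, Fml.recs, e]
              simp
        | Sum.inl b :: Sum.inr a :: is, hl, hrun, hlen, htop, htop2 =>
          simp only [stk, List.getD_cons_zero, List.getD_cons_succ, Item.isF] at htop htop2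
          rw [← htop] at htop2
          simp at htop2
        | Sum.inr b :: Sum.inl a :: is, hl, hrun, hlen, htop, htop2 =>
          simp only [stk, List.getD_cons_zero, List.getD_cons_succ, Item.isF] at htop htop2
          rw [← htop] at htop2
          simp at htop2
        | Sum.inr b :: Sum.inr a :: is, hl, hrun, hlen, htop, htop2 =>
          have hk8 : 8 ≤ kindOf t.1 := by
            by_contra h8
            rw [decide_eq_false h8] at htop
            simp [stk, Item.isF] at htop
          have hcases : kindOf t.1 = 8 ∨ kindOf t.1 = 9 := by omega
          have e : P + 1 + b.size + a.size = P + (1 + b.size + a.size) := by omega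
          rcases hcases with hk | hk
          · have ht : t = Tok.raw .and := Prod.ext (exists_raw hk (by norm_num)) hidx
            refine ⟨Sum.inr (.and a b) :: is, ?_, ?_⟩
            · rw [hl, ht]
              simp only [tks, Item.raws, Fml.raws, Fml.toks, List.map_append, List.append_assoc]
              rfl
            · rw [hk]
              simp only [stk, rcs, Item.size, Item.isF, Item.recs, Fml.size, Fml.recs, e]
              simp
          · have ht : t = Tok.raw .or := Prod.ext (exists_raw hk (by norm_num)) hidx
            refine ⟨Sum.inr (.or a b) :: is, ?_, ?_⟩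
            · rw [hl, ht]
              simp only [tks, Item.raws, Fml.raws, Fml.toks, List.map_append, List.append_assoc]
              rfl
            · rw [hk]
              simp only [stk, rcs, Item.size, Item.isF, Item.recs, Fml.size, Fml.recs, e]
              simp

/-- The machine accepts. -/
def accepts (l : List RTok) : Bool :=
  (run (true, [], []) l 0).1 && (decide ((run (true, [], []) l 0).2.1 = [(true, 0)]))

theorem accepts_raws (φ : Fml) : accepts φ.raws = true := by
  unfold accepts
  rw [φ.run_eq]
  simp

theorem exists_of_accepts {l : List RTok} (h : accepts l = true) : ∃ φ : Fml, l = φ.raws := by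
  unfold accepts at h
  simp only [Bool.and_eq_true, decide_eq_true_eq] at h
  obtain ⟨its, hl, hrun⟩ := run_inv l 0 h.1
  rw [hrun] at h
  have h2 := h.2
  match its, hl, h2 with
  | [], _, h2 => simp [stk] at h2
  | [Sum.inl a], _, h2 => simp [stk, Item.isF] at h2
  | [Sum.inr φ], hl, _ => exact ⟨φ, by rw [hl]; simp [tks, Item.raws]⟩
  | _ :: _ :: _, _, h2 => simp [stk] at h2

end Pool.Agent.Lib.MP_6ff0c5_lc
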